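import Pool.Agent.helper27.BN.Cap3

set_option autoImplicit false
open MeasureTheory Filter Topology Set Metric
open scoped ContDiff Gradient RealInnerProductSpace ENNReal

noncomputable section
namespace Pool.Agent.helper13.BN
namespace CapMod
variable {N : ℕ}

theorem cont_mul {ρ : ℝ} {M h : ℝ → ℝ} (hM : ContinuousOn M (Ioo ρ 1)) (hh : Continuous h)
    (hs : tsupport h ⊆ Ioo ρ 1) : Continuous (fun r => M r * h r) := by
  rw [continuous_iff_continuousAt]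
  intro r
  by_cases hr : r ∈ tsupport h
  · exact ((hM r (hs hr)).continuousAt (isOpen_Ioo.mem_nhds (hs hr))).mul hh.continuousAt
  · have : (fun r => M r * h r) =ᶠ[𝓝 r] fun _ => 0 := by
      filter_upwards [(isClosed_tsupport h).isOpen_compl.mem_nhds hr] with y hy
      rw [image_eq_zero_of_notMem_tsupport hy, mul_zero]
    exact (continuousAt_const (y := (0 : ℝ))).congr this.symm

theorem main_k (hN : 3 ≤ N) {ρ : ℝ} (hρ : 0 < ρ) (hρ1 : ρ < 1) {e : E N} {w : LV N}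
    {v g : E N → ℝ} {K : ℝ} (he : ‖e‖ = 1) (hw : w ∈ XS e ρ) (hK : 0 ≤ K)
    (hv : IsRep (ann N ρ) w v) (hg : Weak (ann N ρ) w g) (hgc : ContinuousOn g (ann N ρ))
    (hgb : ∀ x ∈ ann N ρ, |g x| ≤ K * (1 - ‖x‖)) (hvb : ∀ x ∈ ann N ρ, |v x| ≤ K * (1 - ‖x‖))
    (h2 : ∀ (R : E N ≃ₗᵢ[ℝ] E N) (k : ℝ), (∀ x, ‖R x - x‖ ≤ k * ‖x‖) → ∀ x ∈ ann N ρ,
          |v (R x) + v (R.symm x) - 2 * v x| ≤ K * k ^ 2 * (1 - ‖x‖))
    {ψ : ℝ → ℝ} (hψ : ContDiff ℝ ∞ ψ) (hψs : tsupport ψ ⊆ Ioo ρ 1) (k : ℕ) :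
    |∫ r in ρ..1, v (r • e) * DD1 N ψ r| ≤
      (1 + 16 * N * (N - 1)) * K * (∫ r in ρ..1, (1 - r) * |ψ r|)
        + 8 * K * ((N - 1) / (k + 1)) * ∫ r in ρ..1, (1 - r) * |DD1 N ψ r| := by
  obtain ⟨κ, hκ, hax⟩ := exists_axis N hN
  have hax' : ∀ kk : ℝ → ℝ → ℝ, ContinuousOn (fun z : ℝ × ℝ => kk z.1 z.2)
        (Icc ρ 1 ×ˢ Icc (-1) 1) →
      ∫ x in ann N ρ, kk ‖x‖ (⟪x, e⟫ / ‖x‖) = κ * ∫ r in ρ..1, r ^ (N - 1) * av N (kk r) :=
    fun kk hkk => hax e he ρ 1 hρ hρ1 kk hkk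
  have hN' : (3 : ℝ) ≤ N := by exact_mod_cast hN
  have hk0 : (0 : ℝ) ≤ k := Nat.cast_nonneg k
  set φ := tf e ψ (k + 2) with hφ
  have hφt : IsTest (ann N ρ) φ := tf_isTest hρ e hψ hψs (k + 2)
  have hlap : ∀ x ∈ ann N ρ, lap φ x = DD1 N ψ ‖x‖ / ‖x‖ ^ (N - 1) * qk (k + 2) (⟪x, e⟫ / ‖x‖)
      + ψ ‖x‖ / ‖x‖ ^ 2 * GG N (qk (k + 2)) (⟪x, e⟫ / ‖x‖) := fun x hx =>
    tf_lap hN he hψ (k + 2) (by
      intro h
      have := hx.1
      rw [h, norm_zero] at this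
      linarith)
  have hDc : Continuous (DD1 N ψ) := DD1_cont hψ
  have hDs : tsupport (DD1 N ψ) ⊆ Ioo ρ 1 := DD1_tsupport.trans hψs
  have hψc := hψ.continuous
  have hqc := qk_cont (k + 2)
  have hGc := GG_cont N k
  have hGkc := Gk_cont N k
  set M : ℝ → ℝ := fun r => v (r • e) with hM
  have hnorm : ∀ r : ℝ, 0 < r → ‖r • e‖ = r := fun r hr => by
    rw [norm_smul, he, mul_one, Real.norm_of_nonneg hr.le]
  have hMc : ContinuousOn M (Ioo ρ 1) := by
    refine hv.1.comp (by fun_prop) ?_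
    intro r hr
    have h0 : 0 < r := hρ.trans hr.1
    simp only [ann, mem_ofPred_eq, hnorm r h0]
    exact hr
  have hMD : Continuous (fun r => M r * DD1 N ψ r) := cont_mul hMc hDc hDs
  have hMψ : Continuous (fun r => M r * ψ r) := cont_mul hMc hψc hψs
  -- continuity helper on the rectangle
  have hpos : ∀ z ∈ (Icc ρ 1 ×ˢ Icc (-1) 1 : Set (ℝ × ℝ)), z.1 ≠ 0 := fun z hz =>
    (hρ.trans_le hz.1.1).ne'
  have hdiv : ∀ (a b : ℝ → ℝ) (m : ℕ), Continuous a → Continuous b →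
      ContinuousOn (fun z : ℝ × ℝ => a z.1 / z.1 ^ m * b z.2) (Icc ρ 1 ×ˢ Icc (-1) 1) := by
    intro a b m ha hb
    refine ContinuousOn.mul (ContinuousOn.div (by fun_prop) (by fun_prop) ?_) (by fun_prop)
    intro z hz
    exact pow_ne_zero _ (hpos z hz)
  set A := av N (qk (k + 2)) with hA
  have hApos : 0 < A := av_qk_pos hN _
  -- first function
  set k1 : ℝ → ℝ → ℝ := fun r s => (M r * DD1 N ψ r) / r ^ (N - 1) * qk (k + 2) s
    + (M r * ψ r) / r ^ 2 * GG N (qk (k + 2)) s with hk1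
  have hk1c : ContinuousOn (fun z : ℝ × ℝ => k1 z.1 z.2) (Icc ρ 1 ×ˢ Icc (-1) 1) :=
    (hdiv (fun r => M r * DD1 N ψ r) (qk (k + 2)) (N - 1) hMD hqc).add
      (hdiv (fun r => M r * ψ r) (GG N (qk (k + 2))) 2 hMψ hGc)
  have hI1 : ∫ x in ann N ρ, k1 ‖x‖ (⟪x, e⟫ / ‖x‖) = κ * A * ∫ r in ρ..1, M r * DD1 N ψ r := by
    rw [hax' k1 hk1c, mul_assoc]
    refine congrArg (fun t => κ * t) ?_
    rw [← intervalIntegral.integral_const_mul]
    refine intervalIntegral.integral_congr ?_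
    intro r hr
    rw [uIcc_of_le hρ1.le] at hr
    have hr0 : 0 < r := hρ.trans_le hr.1
    have : av N (k1 r) = (M r * DD1 N ψ r) / r ^ (N - 1) * A := by
      have h1 := av_add hN (q := fun s => (M r * DD1 N ψ r) / r ^ (N - 1) * qk (k + 2) s)
        (r := fun s => (M r * ψ r) / r ^ 2 * GG N (qk (k + 2)) s)
        (by fun_prop) (by fun_prop)
      rw [av_mul_left hN, av_mul_left hN _ (fun s => GG N (qk (k + 2)) s),
        show av N (fun s => GG N (qk (k + 2)) s) = 0 from av_GG hN k, mul_zero, add_zero] at h1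
      exact h1
    simp only [this]
    have hp : r ^ (N - 1) ≠ 0 := pow_ne_zero _ hr0.ne'
    field_simp
  have hk1i : IntegrableOn (fun x : E N => k1 ‖x‖ (⟪x, e⟫ / ‖x‖)) (ann N ρ) volume :=
    axInteg hρ he hk1c
  -- second function
  set k2 : ℝ → ℝ → ℝ := fun r s => (8 * K * (1 - r) * |DD1 N ψ r|) / r ^ (N - 1)
      * ((1 - s) * qk (k + 2) s)
    + (8 * K * (1 - r) * |ψ r|) / r ^ 2 * ((1 - s) * Gk N k s) with hk2
  have hk2c : ContinuousOn (fun z : ℝ × ℝ => k2 z.1 z.2) (Icc ρ 1 ×ˢ Icc (-1) 1) :=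
    (hdiv (fun r => 8 * K * (1 - r) * |DD1 N ψ r|) (fun s => (1 - s) * qk (k + 2) s) (N - 1)
      (by fun_prop) (by fun_prop)).add
      (hdiv (fun r => 8 * K * (1 - r) * |ψ r|) (fun s => (1 - s) * Gk N k s) 2
      (by fun_prop) (by fun_prop))
  have hk2i : IntegrableOn (fun x : E N => k2 ‖x‖ (⟪x, e⟫ / ‖x‖)) (ann N ρ) volume :=
    axInteg hρ he hk2c
  have hI2 : ∫ x in ann N ρ, k2 ‖x‖ (⟪x, e⟫ / ‖x‖) ≤ κ * A *
      (8 * K * ((N - 1) / (k + 1)) * (∫ r in ρ..1, (1 - r) * |DD1 N ψ r|)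
        + 16 * N * (N - 1) * K * ∫ r in ρ..1, (1 - r) * |ψ r|) := by
    rw [hax' k2 hk2c, mul_assoc]
    refine mul_le_mul_of_nonneg_left ?_ hκ.le
    rw [← intervalIntegral.integral_const_mul, ← intervalIntegral.integral_const_mul,
      ← intervalIntegral.integral_add, ← intervalIntegral.integral_const_mul]
    · refine intervalIntegral.integral_mono_on hρ1.le ?_ ?_ ?_
      · have hav : ∀ r, av N (k2 r) = (8 * K * (1 - r) * |DD1 N ψ r|) / r ^ (N - 1)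
            * av N (fun s => (1 - s) * qk (k + 2) s)
            + (8 * K * (1 - r) * |ψ r|) / r ^ 2 * av N (fun s => (1 - s) * Gk N k s) := by
          intro r
          have h1 := av_add hN (q := fun s => (8 * K * (1 - r) * |DD1 N ψ r|) / r ^ (N - 1)
            * ((1 - s) * qk (k + 2) s))
            (r := fun s => (8 * K * (1 - r) * |ψ r|) / r ^ 2 * ((1 - s) * Gk N k s))
            (by fun_prop) (by fun_prop)
          rw [av_mul_left hN, av_mul_left hN] at h1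
          exact h1
        refine ContinuousOn.intervalIntegrable ?_
        rw [uIcc_of_le hρ1.le]
        simp only [hav]
        have hne : ∀ (m : ℕ) (r : ℝ), r ∈ Icc ρ 1 → r ^ m ≠ 0 := fun m r hr =>
          pow_ne_zero _ (hρ.trans_le hr.1).ne'
        refine ContinuousOn.mul (by fun_prop) (ContinuousOn.add ?_ ?_)
        · exact (ContinuousOn.div (by fun_prop) (by fun_prop) (hne (N - 1))).mul continuousOn_const
        · exact (ContinuousOn.div (by fun_prop) (by fun_prop) (hne 2)).mul continuousOn_const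
      · exact (Continuous.intervalIntegrable (by fun_prop) _ _)
      · intro r hr
        have hr0 : 0 < r := hρ.trans_le hr.1
        have h1 := av_add hN (q := fun s => (8 * K * (1 - r) * |DD1 N ψ r|) / r ^ (N - 1)
          * ((1 - s) * qk (k + 2) s))
          (r := fun s => (8 * K * (1 - r) * |ψ r|) / r ^ 2 * ((1 - s) * Gk N k s))
          (by fun_prop) (by fun_prop)
        rw [av_mul_left hN, av_mul_left hN] at h1
        have h1' : av N (k2 r) = _ := h1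
        rw [h1']
        have ha := av_first hN k
        have hb := av_Gk hN k
        have h1r : 0 ≤ 1 - r := by linarith [hr.2]
        have hc1 : r ^ (N - 1) * ((8 * K * (1 - r) * |DD1 N ψ r|) / r ^ (N - 1)
            * av N (fun s => (1 - s) * qk (k + 2) s))
            ≤ A * (8 * K * ((N - 1) / (k + 1)) * ((1 - r) * |DD1 N ψ r|)) := by
          have hp : r ^ (N - 1) ≠ 0 := pow_ne_zero _ hr0.ne'
          have e1 : r ^ (N - 1) * ((8 * K * (1 - r) * |DD1 N ψ r|) / r ^ (N - 1)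
            * av N (fun s => (1 - s) * qk (k + 2) s))
            = (8 * K * (1 - r) * |DD1 N ψ r|) * av N (fun s => (1 - s) * qk (k + 2) s) := by
            field_simp
          rw [e1]
          calc _ ≤ (8 * K * (1 - r) * |DD1 N ψ r|) * ((N - 1) / (k + 1) * A) :=
                mul_le_mul_of_nonneg_left ha (by positivity)
            _ = _ := by ring
        have hc2 : r ^ (N - 1) * ((8 * K * (1 - r) * |ψ r|) / r ^ 2
            * av N (fun s => (1 - s) * Gk N k s))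
            ≤ A * (16 * N * (N - 1) * K * ((1 - r) * |ψ r|)) := by
          have e0 : N - 1 = (N - 3) + 2 := by omega
          have e1 : r ^ (N - 1) * ((8 * K * (1 - r) * |ψ r|) / r ^ 2
            * av N (fun s => (1 - s) * Gk N k s))
            = r ^ (N - 3) * ((8 * K * (1 - r) * |ψ r|) * av N (fun s => (1 - s) * Gk N k s)) := by
            rw [e0, pow_add]
            field_simp
          rw [e1]
          have hnn : 0 ≤ (8 * K * (1 - r) * |ψ r|) := by positivity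
          have hAn : 0 ≤ 2 * N * (N - 1) * A := by
            have : 0 ≤ (N : ℝ) - 1 := by linarith
            positivity
          calc _ ≤ r ^ (N - 3) * ((8 * K * (1 - r) * |ψ r|) * (2 * N * (N - 1) * A)) :=
                mul_le_mul_of_nonneg_left (mul_le_mul_of_nonneg_left hb hnn) (by positivity)
            _ ≤ 1 * ((8 * K * (1 - r) * |ψ r|) * (2 * N * (N - 1) * A)) :=
                mul_le_mul_of_nonneg_right (pow_le_one₀ hr0.le hr.2) (mul_nonneg hnn hAn)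
            _ = _ := by ring
        rw [mul_add]
        calc _ ≤ _ := add_le_add hc1 hc2
          _ = _ := by ring
    · exact (Continuous.intervalIntegrable (by fun_prop) _ _)
    · exact (Continuous.intervalIntegrable (by fun_prop) _ _)
  -- third function
  set k3 : ℝ → ℝ → ℝ := fun r s => (K * (1 - r) * |ψ r|) * qk (k + 2) s with hk3
  have hk3c : ContinuousOn (fun z : ℝ × ℝ => k3 z.1 z.2) (Icc ρ 1 ×ˢ Icc (-1) 1) := by
    simp only [hk3]; fun_prop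
  have hk3i : IntegrableOn (fun x : E N => k3 ‖x‖ (⟪x, e⟫ / ‖x‖)) (ann N ρ) volume :=
    axInteg hρ he hk3c
  have hI3 : ∫ x in ann N ρ, k3 ‖x‖ (⟪x, e⟫ / ‖x‖) ≤ κ * A *
      (K * ∫ r in ρ..1, (1 - r) * |ψ r|) := by
    rw [hax' k3 hk3c, mul_assoc]
    refine mul_le_mul_of_nonneg_left ?_ hκ.le
    rw [← intervalIntegral.integral_const_mul, ← intervalIntegral.integral_const_mul]
    have hav : ∀ r, av N (k3 r) = (K * (1 - r) * |ψ r|) * A := fun r => av_mul_left hN _ _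
    simp only [hav]
    refine intervalIntegral.integral_mono_on hρ1.le
      (Continuous.intervalIntegrable (by fun_prop) _ _)
      (Continuous.intervalIntegrable (by fun_prop) _ _) ?_
    intro r hr
    have hr0 : 0 < r := hρ.trans_le hr.1
    have h1r : 0 ≤ 1 - r := by linarith [hr.2]
    calc r ^ (N - 1) * (K * (1 - r) * |ψ r| * A) ≤ 1 * (K * (1 - r) * |ψ r| * A) :=
          mul_le_mul_of_nonneg_right (pow_le_one₀ hr0.le hr.2) (by positivity)
      _ = _ := by ring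
  -- the geometry
  have hrect : ∀ x ∈ ann N ρ, 0 < ‖x‖ ∧ 0 ≤ 1 - ‖x‖ ∧ ⟪x, e⟫ / ‖x‖ ∈ Icc (-1 : ℝ) 1 := by
    intro x hx
    have hx0 : 0 < ‖x‖ := hρ.trans hx.1
    refine ⟨hx0, by linarith [hx.2], ?_⟩
    have h2 : |⟪x, e⟫ / ‖x‖| ≤ 1 := by
      rw [abs_div, abs_norm, div_le_one hx0]
      have := abs_real_inner_le_norm x e
      rwa [he, mul_one] at this
    exact abs_le.1 h2
  have hmeas : MeasurableSet (ann N ρ) := (isOpen_ann ρ).measurableSet
  have hE1 : ∀ x ∈ ann N ρ, M ‖x‖ * lap φ x = k1 ‖x‖ (⟪x, e⟫ / ‖x‖) := by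
    intro x hx
    rw [hlap x hx]
    simp only [hk1]
    ring
  have hE2 : ∀ x ∈ ann N ρ, |(v x - M ‖x‖) * lap φ x| ≤ k2 ‖x‖ (⟪x, e⟫ / ‖x‖) := by
    intro x hx
    obtain ⟨hx0, hx1, hs⟩ := hrect x hx
    rw [abs_mul]
    have h3 := second_diff hN hρ he hw hv hK hvb h2 hx
    have h4 : |lap φ x| ≤ |DD1 N ψ ‖x‖| / ‖x‖ ^ (N - 1) * qk (k + 2) (⟪x, e⟫ / ‖x‖)
        + |ψ ‖x‖| / ‖x‖ ^ 2 * Gk N k (⟪x, e⟫ / ‖x‖) := by
      rw [hlap x hx]
      refine (abs_add_le _ _).trans (add_le_add ?_ ?_)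
      · rw [abs_mul, abs_div, abs_of_nonneg (qk_nonneg _ hs), abs_of_pos (pow_pos hx0 (N - 1))]
      · rw [abs_mul, abs_div, abs_of_pos (pow_pos hx0 2)]
        exact mul_le_mul_of_nonneg_left (GG_le hN k hs) (by positivity)
    have h5 : 0 ≤ 8 * K * (1 - ⟪x, e⟫ / ‖x‖) * (1 - ‖x‖) :=
      mul_nonneg (mul_nonneg (by positivity) (by linarith [hs.2])) hx1
    calc |v x - M ‖x‖| * |lap φ x| ≤ (8 * K * (1 - ⟪x, e⟫ / ‖x‖) * (1 - ‖x‖)) *
          (|DD1 N ψ ‖x‖| / ‖x‖ ^ (N - 1) * qk (k + 2) (⟪x, e⟫ / ‖x‖)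
        + |ψ ‖x‖| / ‖x‖ ^ 2 * Gk N k (⟪x, e⟫ / ‖x‖)) :=
          mul_le_mul h3 h4 (abs_nonneg _) h5
      _ = k2 ‖x‖ (⟪x, e⟫ / ‖x‖) := by
          simp only [hk2]
          ring
  have hE3 : ∀ x ∈ ann N ρ, |g x * φ x| ≤ k3 ‖x‖ (⟪x, e⟫ / ‖x‖) := by
    intro x hx
    obtain ⟨hx0, hx1, hs⟩ := hrect x hx
    rw [abs_mul, hφ, tf, abs_mul, abs_of_nonneg (qk_nonneg _ hs)]
    have h3 := hgb x hx
    have h4 : 0 ≤ |ψ ‖x‖| * qk (k + 2) (⟪x, e⟫ / ‖x‖) := mul_nonneg (abs_nonneg _) (qk_nonneg _ hs)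
    calc |g x| * (|ψ ‖x‖| * qk (k + 2) (⟪x, e⟫ / ‖x‖))
        ≤ (K * (1 - ‖x‖)) * (|ψ ‖x‖| * qk (k + 2) (⟪x, e⟫ / ‖x‖)) :=
          mul_le_mul_of_nonneg_right h3 h4
      _ = _ := by simp only [hk3]; ring
  -- integrability
  have hlapm : AEStronglyMeasurable (lap φ) (volume.restrict (ann N ρ)) := by
    have : ContinuousOn (lap φ) (ann N ρ) := fun x _ =>
      (continuousAt_lap ((by exact_mod_cast contDiff_infty.1 hφt.1 2 :
        ContDiff ℝ 2 φ).contDiffAt)).continuousWithinAt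
    exact this.aestronglyMeasurable hmeas
  have hMnc : ContinuousOn (fun x : E N => M ‖x‖) (ann N ρ) :=
    hMc.comp continuous_norm.continuousOn fun x hx => hx
  have hi1 : IntegrableOn (fun x => M ‖x‖ * lap φ x) (ann N ρ) volume :=
    hk1i.congr_fun (fun x hx => (hE1 x hx).symm) hmeas
  have hi2 : IntegrableOn (fun x => (v x - M ‖x‖) * lap φ x) (ann N ρ) volume := by
    refine Integrable.mono' hk2i
      (((hv.1.sub hMnc).aestronglyMeasurable hmeas).mul hlapm) ?_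
    exact (ae_restrict_iff' hmeas).2 (ae_of_all _ fun x hx => hE2 x hx)
  -- weak equation
  have hwDD : w ∈ DD (univ : Set (E N)) := DD_mono (subset_univ _) hg.1
  have hφu : IsTest univ φ := ⟨hφt.1, hφt.2.1, subset_univ _⟩
  obtain ⟨W, hW⟩ := exists_isGrad (by exact_mod_cast contDiff_infty.1 hφt.1 1 : ContDiff ℝ 1 φ)
    hφt.2.1
  have hw1 := hg.2 φ W hφt hW
  have hw2 := ibp_lap hN hwDD hφu hW
  have hw3 : ∫ x, fn w x * lap φ x = ∫ x in ann N ρ, v x * lap φ x := by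
    rw [setIntegral_eq_integral_of_forall_compl_eq_zero (fun x hx => by
      rw [hv.2.1 x hx, zero_mul])]
    refine integral_congr_ae ?_
    filter_upwards [hv.2.2] with x hx
    rw [hx]
  have hw4 : ∫ x, g x * φ x = ∫ x in ann N ρ, g x * φ x := by
    symm
    refine setIntegral_eq_integral_of_forall_compl_eq_zero (fun x hx => ?_)
    have : φ x = 0 := image_eq_zero_of_notMem_tsupport fun h => hx (hφt.2.2 h)
    rw [this, mul_zero]
  have hw5 : |∫ x in ann N ρ, g x * φ x| ≤ ∫ x in ann N ρ, k3 ‖x‖ (⟪x, e⟫ / ‖x‖) := by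
    have := norm_integral_le_of_norm_le hk3i (f := fun x => g x * φ x)
      ((ae_restrict_iff' hmeas).2 (ae_of_all _ fun x hx => hE3 x hx))
    exact this
  have hw6 : |∫ x in ann N ρ, (v x - M ‖x‖) * lap φ x| ≤ ∫ x in ann N ρ, k2 ‖x‖ (⟪x, e⟫ / ‖x‖) := by
    have := norm_integral_le_of_norm_le hk2i (f := fun x => (v x - M ‖x‖) * lap φ x)
      ((ae_restrict_iff' hmeas).2 (ae_of_all _ fun x hx => hE2 x hx))
    exact this
  have hw7 : ∫ x in ann N ρ, v x * lap φ x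
      = (∫ x in ann N ρ, M ‖x‖ * lap φ x) + ∫ x in ann N ρ, (v x - M ‖x‖) * lap φ x := by
    rw [← integral_add hi1 hi2]
    refine setIntegral_congr_fun hmeas fun x _ => ?_
    ring
  have hw8 : ∫ x in ann N ρ, M ‖x‖ * lap φ x = κ * A * ∫ r in ρ..1, M r * DD1 N ψ r := by
    rw [← hI1]
    exact setIntegral_congr_fun hmeas fun x hx => hE1 x hx
  have hw9 : ∫ x in ann N ρ, v x * lap φ x = - ∫ x in ann N ρ, g x * φ x := by
    rw [← hw3, ← hw4, ← hw1, hw2, neg_neg]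
  set I := ∫ r in ρ..1, M r * DD1 N ψ r
  set J := ∫ r in ρ..1, (1 - r) * |ψ r|
  set L1 := ∫ r in ρ..1, (1 - r) * |DD1 N ψ r|
  have hfin : κ * A * |I| ≤ κ * A * ((1 + 16 * N * (N - 1)) * K * J
      + 8 * K * ((N - 1) / (k + 1)) * L1) := by
    have h1 : κ * A * I = - (∫ x in ann N ρ, g x * φ x)
        - ∫ x in ann N ρ, (v x - M ‖x‖) * lap φ x := by
      rw [← hw8]; linarith
    have h3 : κ * A * |I| = |κ * A * I| := by
      rw [abs_mul, abs_of_pos (mul_pos hκ hApos)]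
    rw [h3, h1]
    have h4 := abs_sub (- (∫ x in ann N ρ, g x * φ x)) (∫ x in ann N ρ, (v x - M ‖x‖) * lap φ x)
    rw [abs_neg] at h4
    nlinarith
  exact le_of_mul_le_mul_left hfin (mul_pos hκ hApos)

end CapMod

variable {N : ℕ}

/-- C9a: testing with `ψ(|x|) ((1+x·e/|x|)/2)^k`, `k → ∞` -/
theorem cap (hN : 3 ≤ N) {ρ : ℝ} (hρ : 0 < ρ) (hρ1 : ρ < 1) : ∃ C : ℝ, 0 < C ∧
    ∀ (e : E N) (w : LV N) (v g : E N → ℝ) (K : ℝ), ‖e‖ = 1 → w ∈ XS e ρ → 0 ≤ K →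
      IsRep (ann N ρ) w v → Weak (ann N ρ) w g → ContinuousOn g (ann N ρ) →
      (∀ x ∈ ann N ρ, |g x| ≤ K * (1 - ‖x‖)) → (∀ x ∈ ann N ρ, |v x| ≤ K * (1 - ‖x‖)) →
      (∀ (R : E N ≃ₗᵢ[ℝ] E N) (k : ℝ), (∀ x, ‖R x - x‖ ≤ k * ‖x‖) → ∀ x ∈ ann N ρ,
          |v (R x) + v (R.symm x) - 2 * v x| ≤ K * k ^ 2 * (1 - ‖x‖)) →
      ∀ ψ : ℝ → ℝ, ContDiff ℝ ∞ ψ → HasCompactSupport ψ → tsupport ψ ⊆ Ioo ρ 1 →
        |∫ r in ρ..1, v (r • e) * deriv (fun s => s ^ (N - 1) * deriv ψ s) r|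
          ≤ C * K * ∫ r in ρ..1, (1 - r) * |ψ r| := by
  have hN' : (3 : ℝ) ≤ N := by exact_mod_cast hN
  refine ⟨1 + 16 * N * (N - 1), by nlinarith, ?_⟩
  intro e w v g K he hw hK hv hg hgc hgb hvb h2 ψ hψ _ hψs
  have key := CapMod.main_k hN hρ hρ1 he hw hK hv hg hgc hgb hvb h2 hψ hψs
  set L1 := ∫ r in ρ..1, (1 - r) * |CapMod.DD1 N ψ r|
  have hlim : Tendsto (fun k : ℕ => (1 + 16 * (N : ℝ) * (N - 1)) * K * (∫ r in ρ..1, (1 - r) * |ψ r|)
        + 8 * K * (((N : ℝ) - 1) / ((k : ℝ) + 1)) * L1) atTop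
      (𝓝 ((1 + 16 * (N : ℝ) * (N - 1)) * K * (∫ r in ρ..1, (1 - r) * |ψ r|)
        + 8 * K * 0 * L1)) := by
    have h1 : Tendsto (fun k : ℕ => ((N : ℝ) - 1) / ((k : ℝ) + 1)) atTop (𝓝 0) :=
      ((tendsto_const_div_atTop_nhds_zero_nat ((N : ℝ) - 1)).comp (tendsto_add_atTop_nat 1)).congr
        fun k => by simp
    exact tendsto_const_nhds.add ((h1.const_mul (8 * K)).mul_const L1)
  have := ge_of_tendsto' hlim fun k => key k
  simpa [CapMod.DD1] using this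

end Pool.Agent.helper13.BN
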