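import Pool.Agent.helper13.BN.Defs2
import Pool.Agent.helper22.BN.AxSp
import Pool.Agent.helper73.BN.Moments
import Pool.Agent.helper40.BN.Lap
import Pool.Agent.helper23.BN.Basic
import Pool.Agent.helper19.BN.AxInt

set_option autoImplicit false
open MeasureTheory Filter Topology Set Metric
open scoped ContDiff Gradient RealInnerProductSpace ENNReal

noncomputable section
namespace Pool.Agent.helper13.BN
namespace CapMod
variable {N : ℕ}

theorem isOpen_ann (ρ : ℝ) : IsOpen (ann N ρ) :=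
  (isOpen_lt continuous_const continuous_norm).inter (isOpen_lt continuous_norm continuous_const)

/-- two continuous functions on an open set which agree a.e. agree -/
theorem eqOn_of_ae {Ω : Set (E N)} (hΩ : IsOpen Ω) {f g : E N → ℝ} (hf : ContinuousOn f Ω)
    (hg : ContinuousOn g Ω) (h : ∀ᵐ x, x ∈ Ω → f x = g x) : ∀ x ∈ Ω, f x = g x := by
  have h' : f =ᵐ[volume.restrict Ω] g := by
    rw [EventuallyEq, ae_restrict_iff' hΩ.measurableSet]
    exact h
  exact fun x hx => Measure.eqOn_open_of_ae_eq h' hΩ hf hg hx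

theorem sym (hN : 3 ≤ N) {ρ : ℝ} {e : E N} {w : LV N} {v : E N → ℝ} (hw : w ∈ XS e ρ)
    (hv : IsRep (ann N ρ) w v) {y y' : E N} (hy : y ∈ ann N ρ) (hn : ‖y‖ = ‖y'‖)
    (hi : ⟪y, e⟫ = ⟪y', e⟫) : v y = v y' := by
  obtain ⟨hw1, hw2⟩ := (mem_XS hN).1 hw
  obtain ⟨hv1, hv2, hv3⟩ := hv
  set R : E N ≃ₗᵢ[ℝ] E N := Submodule.reflection (ℝ ∙ (y - y'))ᗮ with hR
  have hRy : R y = y' := Submodule.reflection_sub hn
  have hRe : R e = e := by
    apply Submodule.reflection_mem_subspace_eq_self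
    rw [Submodule.mem_orthogonal_singleton_iff_inner_left, real_inner_comm, inner_sub_left, hi,
      sub_self]
  have h1 := axial_rot hw2 R hRe
  have hmem : ∀ x, x ∈ ann N ρ ↔ R x ∈ ann N ρ := fun x => by
    simp only [ann, mem_ofPred_eq, R.norm_map]
  have hRc : ContinuousOn (fun x => v (R x)) (ann N ρ) :=
    hv1.comp R.continuous.continuousOn fun x hx => (hmem x).1 hx
  have h2 : ∀ᵐ x, v (R x) = v x := by
    have h3 : ∀ᵐ x, fn w (R x) = v (R x) :=
      (R.measurePreserving.quasiMeasurePreserving.ae) hv3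
    filter_upwards [h1, hv3, h3] with x a b c
    rw [← c, a, b]
  have := eqOn_of_ae (isOpen_ann ρ) hRc hv1 (h2.mono fun x hx _ => hx) y hy
  rw [← this, hRy]

/-- the rotation taking `e` to `u` -/
theorem rot_exists {e u : E N} (he : ‖e‖ = 1) (hu : ‖u‖ = 1) (hs : -1 < ⟪u, e⟫) :
    ∃ (R : E N ≃ₗᵢ[ℝ] E N) (k : ℝ), (∀ x, ‖R x - x‖ ≤ k * ‖x‖) ∧ k ^ 2 ≤ 16 * (1 - ⟪u, e⟫) ∧
      R e = u ∧ R.symm e = (2 * ⟪u, e⟫) • e - u := by
  set s := ⟪u, e⟫ with hsdef
  have hs1 : s ≤ 1 := by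
    have := real_inner_le_norm u e
    rw [he, hu] at this
    simpa using this
  have hsq : ‖e + u‖ ^ 2 = 2 + 2 * s := by
    rw [norm_add_sq_real, he, hu, real_inner_comm]
    ring
  have hpos : 0 < ‖e + u‖ := by
    refine lt_of_le_of_ne (norm_nonneg _) fun h => ?_
    rw [← h] at hsq
    nlinarith
  set n : E N := ‖e + u‖⁻¹ • (e + u) with hn
  have hn1 : ‖n‖ = 1 := by
    rw [hn, norm_smul, norm_inv, norm_norm, inv_mul_cancel₀ hpos.ne']
  have hne : ⟪n, e⟫ = ‖e + u‖ / 2 := by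
    rw [hn, real_inner_smul_left, inner_add_left, real_inner_self_eq_norm_sq, he, ← hsdef]
    field_simp
    rw [hsq]; ring
  have hdist : ‖n - e‖ ^ 2 ≤ 1 - s := by
    rw [norm_sub_sq_real, hn1, he, hne]
    have h1 : 1 + s ≤ ‖e + u‖ := by
      by_contra hcon
      push Not at hcon
      have h2 : 0 ≤ 1 + s := by linarith
      nlinarith [hpos]
    linarith
  set A : E N ≃ₗᵢ[ℝ] E N := Submodule.reflection (ℝ ∙ e) with hA
  set B : E N ≃ₗᵢ[ℝ] E N := Submodule.reflection (ℝ ∙ n) with hB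
  have hAx : ∀ x, A x = (2 * ⟪e, x⟫) • e - x := fun x => by
    rw [hA, Submodule.reflection_singleton_apply, he]
    simp [two_smul, ← add_smul, two_mul]
  have hBx : ∀ x, B x = (2 * ⟪n, x⟫) • n - x := fun x => by
    rw [hB, Submodule.reflection_singleton_apply, hn1]
    simp [two_smul, ← add_smul, two_mul]
  refine ⟨A.trans B, 4 * ‖n - e‖, fun x => ?_, ?_, ?_, ?_⟩
  · have h1 : ‖(A.trans B) x - x‖ = ‖A x - B x‖ := by
      have : (A.trans B) x - x = B (A x - B x) := by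
        rw [map_sub, LinearIsometryEquiv.trans_apply, hB, Submodule.reflection_reflection]
      rw [this, LinearIsometryEquiv.norm_map]
    rw [h1, hAx, hBx]
    have h2 : (2 * ⟪e, x⟫) • e - x - ((2 * ⟪n, x⟫) • n - x)
        = (2 : ℝ) • (⟪e - n, x⟫ • e + ⟪n, x⟫ • (e - n)) := by
      rw [inner_sub_left]
      module
    rw [h2, norm_smul]
    have h3 : ‖⟪e - n, x⟫ • e + ⟪n, x⟫ • (e - n)‖ ≤ ‖e - n‖ * ‖x‖ + ‖x‖ * ‖e - n‖ := by
      refine (norm_add_le _ _).trans (add_le_add ?_ ?_)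
      · rw [norm_smul, he, mul_one]
        exact norm_inner_le_norm _ _
      · rw [norm_smul]
        refine mul_le_mul_of_nonneg_right ?_ (norm_nonneg _)
        have := norm_inner_le_norm (𝕜 := ℝ) n x
        rwa [hn1, one_mul] at this
    rw [norm_sub_rev n e]
    have : ‖(2 : ℝ)‖ = 2 := by norm_num
    rw [this]
    nlinarith
  · nlinarith
  · rw [LinearIsometryEquiv.trans_apply, hAx, hBx, real_inner_self_eq_norm_sq, he]
    have h1 : (2 * (1 : ℝ) ^ 2) • e - e = e := by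
      rw [one_pow, mul_one, two_smul]; abel
    rw [h1, hne, hn, smul_smul]
    have : 2 * (‖e + u‖ / 2) * ‖e + u‖⁻¹ = 1 := by field_simp
    rw [this, one_smul]
    abel
  · have h1 : (A.trans B).symm e = A (B e) := by
      rw [LinearIsometryEquiv.symm_trans, LinearIsometryEquiv.trans_apply, hA, hB,
        Submodule.reflection_symm, Submodule.reflection_symm]
    have h2 : B e = u := by
      rw [hBx, hne, hn, smul_smul]
      have : 2 * (‖e + u‖ / 2) * ‖e + u‖⁻¹ = 1 := by field_simp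
      rw [this, one_smul]
      abel
    rw [h1, h2, hAx, real_inner_comm]

/-- `|v(x) - v(|x|e)| ≤ 8 K (1-s)(1-|x|)` -/
theorem second_diff (hN : 3 ≤ N) {ρ : ℝ} (hρ : 0 < ρ) {e : E N} (he : ‖e‖ = 1) {w : LV N}
    {v : E N → ℝ} {K : ℝ} (hw : w ∈ XS e ρ) (hv : IsRep (ann N ρ) w v) (hK : 0 ≤ K)
    (hvb : ∀ x ∈ ann N ρ, |v x| ≤ K * (1 - ‖x‖))
    (h2 : ∀ (R : E N ≃ₗᵢ[ℝ] E N) (k : ℝ), (∀ x, ‖R x - x‖ ≤ k * ‖x‖) → ∀ x ∈ ann N ρ,
          |v (R x) + v (R.symm x) - 2 * v x| ≤ K * k ^ 2 * (1 - ‖x‖))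
    {x : E N} (hx : x ∈ ann N ρ) :
    |v x - v (‖x‖ • e)| ≤ 8 * K * (1 - ⟪x, e⟫ / ‖x‖) * (1 - ‖x‖) := by
  have hx0 : 0 < ‖x‖ := hρ.trans hx.1
  have hx1 : 0 ≤ 1 - ‖x‖ := by linarith [hx.2]
  have hne : ‖‖x‖ • e‖ = ‖x‖ := by rw [norm_smul, norm_norm, he, mul_one]
  have hre : ‖x‖ • e ∈ ann N ρ := by
    simp only [ann, mem_ofPred_eq, hne]
    exact hx
  set u : E N := ‖x‖⁻¹ • x with hu
  have hu1 : ‖u‖ = 1 := by rw [hu, norm_smul, norm_inv, norm_norm, inv_mul_cancel₀ hx0.ne']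
  have hue : ⟪u, e⟫ = ⟪x, e⟫ / ‖x‖ := by
    rw [hu, real_inner_smul_left]
    field_simp
  have hxu : ‖x‖ • u = x := by
    rw [hu, smul_smul, mul_inv_cancel₀ hx0.ne', one_smul]
  have hs1 : ⟪u, e⟫ ≤ 1 := by
    have := real_inner_le_norm u e
    rw [he, hu1] at this
    simpa using this
  have hs2 : -1 ≤ ⟪u, e⟫ := by
    have := neg_le_of_abs_le (abs_real_inner_le_norm u e)
    rw [he, hu1] at this
    simpa using this
  rw [← hue]
  rcases hs2.eq_or_lt with h | h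
  · rw [← h]
    have h3 := hvb x hx
    have h4 := hvb _ hre
    rw [hne] at h4
    have h5 := abs_sub (v x) (v (‖x‖ • e))
    have h6 : 0 ≤ K * (1 - ‖x‖) := mul_nonneg hK hx1
    nlinarith
  · obtain ⟨R, k, hR1, hk, hR2, hR3⟩ := rot_exists he hu1 h
    have h3 := h2 R k hR1 _ hre
    have h4 : R (‖x‖ • e) = x := by rw [map_smul, hR2, hxu]
    have h5 : v (R.symm (‖x‖ • e)) = v x := by
      symm
      apply sym hN hw hv hx
      · rw [LinearIsometryEquiv.norm_map, hne]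
      · rw [map_smul, hR3, real_inner_smul_left, inner_sub_left, real_inner_smul_left,
          real_inner_self_eq_norm_sq, he]
        nth_rw 1 [← hxu]
        rw [real_inner_smul_left]
        ring
    rw [h4, h5, hne] at h3
    have h6 : v x + v x - 2 * v (‖x‖ • e) = 2 * (v x - v (‖x‖ • e)) := by ring
    rw [h6, abs_mul, abs_two] at h3
    have h7 : K * k ^ 2 * (1 - ‖x‖) ≤ K * (16 * (1 - ⟪u, e⟫)) * (1 - ‖x‖) :=
      mul_le_mul_of_nonneg_right (mul_le_mul_of_nonneg_left hk hK) hx1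
    linarith

end CapMod
end Pool.Agent.helper13.BN
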