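import Pool.Agent.helper27.BN.Cap1

set_option autoImplicit false
open MeasureTheory Filter Topology Set Metric
open scoped ContDiff Gradient RealInnerProductSpace ENNReal

noncomputable section
namespace Pool.Agent.helper13.BN
namespace CapMod
variable {N : ℕ}

/-- `((1+s)/2)^k` -/
def qk (k : ℕ) (s : ℝ) : ℝ := ((1 + s) / 2) ^ k

theorem qk_contDiff (k : ℕ) : ContDiff ℝ ∞ (qk k) := by
  unfold qk; fun_prop

theorem qk_cont (k : ℕ) : Continuous (qk k) := (qk_contDiff k).continuous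

theorem qk_nonneg (k : ℕ) {s : ℝ} (hs : s ∈ Icc (-1 : ℝ) 1) : 0 ≤ qk k s := by
  unfold qk; exact pow_nonneg (by linarith [hs.1]) _

theorem qk_succ (k : ℕ) (s : ℝ) : qk (k + 1) s = qk k s * ((1 + s) / 2) := by
  unfold qk; rw [pow_succ]

theorem qk_hasDerivAt (k : ℕ) (s : ℝ) : HasDerivAt (qk (k + 1)) ((k + 1) / 2 * qk k s) s := by
  unfold qk
  have h1 : HasDerivAt (fun s : ℝ => (1 + s) / 2) (1 / 2) s := by
    simpa using ((hasDerivAt_id s).const_add 1).div_const 2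
  have h2 := h1.pow (k + 1)
  refine h2.congr_deriv ?_
  push_cast
  ring

theorem qk_deriv (k : ℕ) : deriv (qk (k + 1)) = fun s => (k + 1) / 2 * qk k s :=
  funext fun s => (qk_hasDerivAt k s).deriv

theorem av_cmul (hN : 3 ≤ N) (c : ℝ) (q : ℝ → ℝ) : av N (fun s => c * q s) = c * av N q :=
  av_mul_left hN c q

theorem av_sub' (hN : 3 ≤ N) {q r : ℝ → ℝ} (hq : Continuous q) (hr : Continuous r) :
    av N (fun s => q s - r s) = av N q - av N r := by
  have h1 := av_add hN (q := q) (r := fun s => (-1) * r s) hq.continuousOn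
    (by fun_prop : Continuous fun s => (-1) * r s).continuousOn
  rw [av_mul_left hN] at h1
  have h2 : (fun s => q s - r s) = fun s => q s + (-1) * r s := by funext s; ring
  rw [h2, h1]; ring

/-- the first moment -/
theorem mom1 (hN : 3 ≤ N) (k : ℕ) :
    ((k : ℝ) + 1 + (N - 1)) * av N (fun s => (1 - s) * qk (k + 1) s)
      = (N - 1) * av N (qk (k + 1)) := by
  have hc := qk_cont (k + 1)
  have h := av_ibp hN (q := qk (k + 1)) ((qk_contDiff (k + 1)).of_le (by simp))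
  rw [qk_deriv] at h
  have h1 : (fun s : ℝ => (1 - s ^ 2) * ((k + 1) / 2 * qk k s))
      = fun s => ((k : ℝ) + 1) * ((1 - s) * qk (k + 1) s) := by
    funext s; rw [qk_succ]; ring
  have h2 : (fun s : ℝ => ((N : ℝ) - 1) * s * qk (k + 1) s)
      = fun s => ((N : ℝ) - 1) * (qk (k + 1) s - (1 - s) * qk (k + 1) s) := by
    funext s; ring
  rw [h1, h2, av_mul_left hN, av_mul_left hN, av_sub' hN hc (by fun_prop)] at h
  linarith

/-- the second moment -/
theorem mom2 (hN : 3 ≤ N) (k : ℕ) :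
    ((k : ℝ) + 1 + N) * av N (fun s => (1 - s) ^ 2 * qk (k + 1) s)
      = (N + 1) * av N (fun s => (1 - s) * qk (k + 1) s) := by
  have hc := qk_cont (k + 1)
  have hd : ContDiff ℝ 1 (fun s => (1 - s) * qk (k + 1) s) :=
    (contDiff_const.sub contDiff_id).mul ((qk_contDiff (k + 1)).of_le (by simp))
  have h := av_ibp hN hd
  have hd' : deriv (fun s => (1 - s) * qk (k + 1) s)
      = fun s => -qk (k + 1) s + (1 - s) * ((k + 1) / 2 * qk k s) := by
    funext s
    have h1 : HasDerivAt (fun s : ℝ => 1 - s) (-1) s := by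
      simpa using (hasDerivAt_id s).const_sub 1
    have := (h1.mul (qk_hasDerivAt k s)).deriv
    rw [show (fun s => (1 - s) * qk (k + 1) s) = (fun s : ℝ => 1 - s) * qk (k + 1) from rfl, this]
    ring
  rw [hd'] at h
  have h1 : (fun s : ℝ => (1 - s ^ 2) * (-qk (k + 1) s + (1 - s) * ((k + 1) / 2 * qk k s)))
      = fun s => ((k : ℝ) + 1 + 1) * ((1 - s) ^ 2 * qk (k + 1) s)
          - 2 * ((1 - s) * qk (k + 1) s) := by
    funext s; rw [qk_succ]; ring
  have h2 : (fun s : ℝ => ((N : ℝ) - 1) * s * ((1 - s) * qk (k + 1) s))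
      = fun s => ((N : ℝ) - 1) * ((1 - s) * qk (k + 1) s - (1 - s) ^ 2 * qk (k + 1) s) := by
    funext s; ring
  rw [h1, h2, av_mul_left hN, av_sub' hN (by fun_prop) (by fun_prop),
    av_sub' hN (by fun_prop) (by fun_prop), av_mul_left hN, av_mul_left hN] at h
  linarith

theorem av_nonneg' (hN : 3 ≤ N) {q : ℝ → ℝ} (hq : Continuous q)
    (h : ∀ s ∈ Icc (-1 : ℝ) 1, 0 ≤ q s) : 0 ≤ av N q := by
  have := av_mono hN (q := fun _ => 0) (r := q) continuousOn_const hq.continuousOn h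
  rwa [av_const hN] at this

theorem av_qk_pos (hN : 3 ≤ N) (k : ℕ) : 0 < av N (qk k) := by
  induction k with
  | zero =>
    have : qk 0 = fun _ => 1 := by funext s; simp [qk]
    rw [this, av_const hN]; norm_num
  | succ k ih =>
    rcases Nat.eq_zero_or_pos k with rfl | hk
    · have h1 : qk (0 + 1) = fun s => (1 / 2) * (1 : ℝ) + (1 / 2) * s := by
        funext s; simp [qk]; ring
      have h2 : av N (fun s => s) = 0 := by
        have h3 := av_neg hN (fun s => s)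
        have h4 := av_mul_left hN (-1) (fun s => s)
        simp only [neg_one_mul] at h4
        linarith
      rw [h1, av_add hN (q := fun _ => (1 / 2) * (1 : ℝ)) (r := fun s => (1 / 2) * s) (by fun_prop)
        (by fun_prop), av_mul_left hN (1 / 2) (fun s => s), h2, av_const hN]
      norm_num
    · obtain ⟨j, rfl⟩ : ∃ j, k = j + 1 := ⟨k - 1, by omega⟩
      have hc := qk_cont (j + 1)
      have h1 : qk (j + 1 + 1) = fun s => qk (j + 1) s - (1 / 2) * ((1 - s) * qk (j + 1) s) := by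
        funext s; rw [qk_succ (j + 1)]; ring
      rw [h1, av_sub' hN hc (by fun_prop), av_mul_left hN]
      have h2 := mom1 hN j
      have hj : (0 : ℝ) ≤ j := Nat.cast_nonneg j
      have hN' : (3 : ℝ) ≤ N := by exact_mod_cast hN
      have h3 : 0 ≤ av N (fun s => (1 - s) * qk (j + 1) s) :=
        av_nonneg' hN (by fun_prop) fun s hs => mul_nonneg (by linarith [hs.2]) (qk_nonneg _ hs)
      nlinarith

/-- `q_{k+2}` versus `q_{k+1}` -/
theorem av_qk_half (hN : 3 ≤ N) (k : ℕ) : av N (qk (k + 1)) ≤ 2 * av N (qk (k + 2)) := by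
  have hc := qk_cont (k + 1)
  have h1 : qk (k + 2) = fun s => qk (k + 1) s - (1 / 2) * ((1 - s) * qk (k + 1) s) := by
    funext s; rw [qk_succ (k + 1)]; ring
  rw [h1, av_sub' hN hc (by fun_prop), av_mul_left hN]
  have h2 := mom1 hN k
  have hj : (0 : ℝ) ≤ k := Nat.cast_nonneg k
  have hN' : (3 : ℝ) ≤ N := by exact_mod_cast hN
  have h3 : 0 ≤ av N (fun s => (1 - s) * qk (k + 1) s) :=
    av_nonneg' hN (by fun_prop) fun s hs => mul_nonneg (by linarith [hs.2]) (qk_nonneg _ hs)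
  have h4 := av_qk_pos hN (k + 1)
  nlinarith

/-- the operator `(1-s²)q'' - (N-1)sq'` -/
def GG (N : ℕ) (q : ℝ → ℝ) (s : ℝ) : ℝ :=
  (1 - s ^ 2) * deriv (deriv q) s - (N - 1) * s * deriv q s

/-- the majorant of `|𝒢 q_{k+2}|` -/
def Gk (N k : ℕ) (s : ℝ) : ℝ := ((k : ℝ) + 2) / 2 * (qk (k + 1) s * ((k + 1) * (1 - s) + (N - 1)))

theorem GG_qk (N k : ℕ) (s : ℝ) :
    GG N (qk (k + 2)) s = ((k : ℝ) + 2) / 2 * (qk (k + 1) s * ((k + 1) * (1 - s) - (N - 1) * s)) := by
  unfold GG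
  have h1 : deriv (qk (k + 2)) = fun s => ((k : ℝ) + 2) / 2 * qk (k + 1) s := by
    rw [show k + 2 = (k + 1) + 1 from rfl, qk_deriv]
    funext s; push_cast; ring
  have h2 : deriv (fun s => ((k : ℝ) + 2) / 2 * qk (k + 1) s) s
      = ((k : ℝ) + 2) / 2 * ((k + 1) / 2 * qk k s) :=
    ((qk_hasDerivAt k s).const_mul _).deriv
  rw [h1, h2]
  simp only [qk_succ k s]
  ring

theorem GG_cont (N k : ℕ) : Continuous (GG N (qk (k + 2))) := by
  rw [show GG N (qk (k + 2)) = _ from funext fun s => GG_qk N k s]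
  have hc := qk_cont (k + 1)
  fun_prop

theorem Gk_cont (N k : ℕ) : Continuous (Gk N k) := by
  unfold Gk
  have hc := qk_cont (k + 1)
  fun_prop

theorem GG_le (hN : 3 ≤ N) (k : ℕ) {s : ℝ} (hs : s ∈ Icc (-1 : ℝ) 1) :
    |GG N (qk (k + 2)) s| ≤ Gk N k s := by
  rw [GG_qk, Gk, abs_mul, abs_mul, abs_of_nonneg (qk_nonneg _ hs)]
  have hk : (0 : ℝ) ≤ k := Nat.cast_nonneg k
  rw [abs_of_nonneg (by positivity : (0 : ℝ) ≤ ((k : ℝ) + 2) / 2)]
  have hN' : (3 : ℝ) ≤ N := by exact_mod_cast hN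
  refine mul_le_mul_of_nonneg_left (mul_le_mul_of_nonneg_left ?_ (qk_nonneg _ hs)) (by positivity)
  obtain ⟨h1, h2⟩ := hs
  rw [abs_le]
  constructor <;> nlinarith [mul_nonneg (by linarith : (0 : ℝ) ≤ (k : ℝ) + 1)
    (by linarith : 0 ≤ 1 - s)]

theorem av_GG (hN : 3 ≤ N) (k : ℕ) : av N (GG N (qk (k + 2))) = 0 := by
  have hd : deriv (qk (k + 2)) = fun s => (((k + 1 : ℕ) : ℝ) + 1) / 2 * qk (k + 1) s :=
    qk_deriv (k + 1)
  have h := av_ibp hN (q := deriv (qk (k + 2))) (by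
    rw [hd]
    exact contDiff_const.mul ((qk_contDiff (k + 1)).of_le (by simp)))
  have hc := qk_cont (k + 1)
  have hc' := qk_cont k
  have hd2 : deriv (deriv (qk (k + 2))) = fun s => (((k + 1 : ℕ) : ℝ) + 1) / 2 * (((k : ℝ) + 1) / 2 * qk k s) := by
    rw [hd]
    funext s
    exact ((qk_hasDerivAt k s).const_mul _).deriv
  have : GG N (qk (k + 2)) = fun s => (1 - s ^ 2) * deriv (deriv (qk (k + 2))) s
      - (N - 1) * s * deriv (qk (k + 2)) s := rfl
  rw [this, av_sub' hN (by rw [hd2]; fun_prop) (by rw [hd]; fun_prop), h, sub_self]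

theorem av_Gk (hN : 3 ≤ N) (k : ℕ) :
    av N (fun s => (1 - s) * Gk N k s) ≤ 2 * N * (N - 1) * av N (qk (k + 2)) := by
  have hc := qk_cont (k + 1)
  have h1 : (fun s => (1 - s) * Gk N k s)
      = fun s => (((k : ℝ) + 2) / 2 * (k + 1)) * ((1 - s) ^ 2 * qk (k + 1) s)
        + (((k : ℝ) + 2) / 2 * (N - 1)) * ((1 - s) * qk (k + 1) s) := by
    funext s; unfold Gk; ring
  rw [h1, av_add hN (by fun_prop) (by fun_prop), av_mul_left hN, av_mul_left hN]
  have hk : (0 : ℝ) ≤ k := Nat.cast_nonneg k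
  have hN' : (3 : ℝ) ≤ N := by exact_mod_cast hN
  have m1 := mom1 hN k
  have m2 := mom2 hN k
  have hh := av_qk_half hN k
  set a2 := av N (fun s => (1 - s) ^ 2 * qk (k + 1) s)
  set a1 := av N (fun s => (1 - s) * qk (k + 1) s)
  set a0 := av N (qk (k + 1))
  set b0 := av N (qk (k + 2))
  have h3 : 0 ≤ a1 :=
    av_nonneg' hN (by fun_prop) fun s hs => mul_nonneg (by linarith [hs.2]) (qk_nonneg _ hs)
  have h4 : 0 ≤ a2 :=
    av_nonneg' hN (by fun_prop) fun s hs => mul_nonneg (sq_nonneg _) (qk_nonneg _ hs)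
  have h5 : ((k : ℝ) + 1) * a2 ≤ (N + 1) * a1 := by nlinarith
  have h6 : ((k : ℝ) + 2) * a1 ≤ (N - 1) * a0 := by nlinarith
  have h7 : 0 ≤ a0 := (av_qk_pos hN (k + 1)).le
  calc ((k : ℝ) + 2) / 2 * (k + 1) * a2 + ((k : ℝ) + 2) / 2 * (N - 1) * a1
      = ((k : ℝ) + 2) / 2 * (((k : ℝ) + 1) * a2) + ((k : ℝ) + 2) / 2 * (N - 1) * a1 := by ring
    _ ≤ ((k : ℝ) + 2) / 2 * ((N + 1) * a1) + ((k : ℝ) + 2) / 2 * (N - 1) * a1 := by
        have := mul_le_mul_of_nonneg_left h5 (by positivity : (0 : ℝ) ≤ ((k : ℝ) + 2) / 2)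
        linarith
    _ = N * (((k : ℝ) + 2) * a1) := by ring
    _ ≤ N * ((N - 1) * a0) := mul_le_mul_of_nonneg_left h6 (by linarith)
    _ = N * (N - 1) * a0 := by ring
    _ ≤ N * (N - 1) * (2 * b0) := mul_le_mul_of_nonneg_left hh (by nlinarith)
    _ = 2 * N * (N - 1) * b0 := by ring

theorem av_first (hN : 3 ≤ N) (k : ℕ) :
    av N (fun s => (1 - s) * qk (k + 2) s) ≤ (N - 1) / (k + 1) * av N (qk (k + 2)) := by
  have m1 := mom1 hN (k + 1)
  push_cast at m1
  have hk : (0 : ℝ) ≤ k := Nat.cast_nonneg k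
  have hN' : (3 : ℝ) ≤ N := by exact_mod_cast hN
  have hc := qk_cont (k + 2)
  have h3 : 0 ≤ av N (fun s => (1 - s) * qk (k + 2) s) :=
    av_nonneg' hN (by fun_prop) fun s hs => mul_nonneg (by linarith [hs.2]) (qk_nonneg _ hs)
  rw [div_mul_eq_mul_div, le_div_iff₀ (by linarith)]
  have e1 : k + 1 + 1 = k + 2 := rfl
  rw [e1] at m1
  nlinarith

end CapMod
end Pool.Agent.helper13.BN
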