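import Pool.Agent.helper27.BN.Cap2

set_option autoImplicit false
open MeasureTheory Filter Topology Set Metric
open scoped ContDiff Gradient RealInnerProductSpace ENNReal

noncomputable section
namespace Pool.Agent.helper13.BN
namespace CapMod
variable {N : ℕ}

/-- `(r^{N-1} ψ')'` -/
def DD1 (N : ℕ) (ψ : ℝ → ℝ) (r : ℝ) : ℝ := deriv (fun s => s ^ (N - 1) * deriv ψ s) r

theorem DD1_eq {ψ : ℝ → ℝ} (hψ : ContDiff ℝ ∞ ψ) (r : ℝ) :
    DD1 N ψ r = ((N - 1 : ℕ) : ℝ) * r ^ (N - 1 - 1) * deriv ψ r + r ^ (N - 1) * deriv (deriv ψ) r := by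
  have h1 : HasDerivAt (fun s : ℝ => s ^ (N - 1)) (((N - 1 : ℕ) : ℝ) * r ^ (N - 1 - 1)) r :=
    hasDerivAt_pow _ _
  have h2 : HasDerivAt (deriv ψ) (deriv (deriv ψ) r) r := by
    have h := ((contDiff_infty_iff_deriv).1 hψ).2
    exact ((h.differentiable (by simp)) r).hasDerivAt
  exact (h1.mul h2).deriv

theorem contDiff_deriv {ψ : ℝ → ℝ} (hψ : ContDiff ℝ ∞ ψ) : ContDiff ℝ ∞ (deriv ψ) :=
  ((contDiff_infty_iff_deriv).1 hψ).2

theorem DD1_cont {ψ : ℝ → ℝ} (hψ : ContDiff ℝ ∞ ψ) : Continuous (DD1 N ψ) := by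
  rw [show DD1 N ψ = _ from funext fun r => DD1_eq hψ r]
  have h1 := (contDiff_deriv hψ).continuous
  have h2 := (contDiff_deriv (contDiff_deriv hψ)).continuous
  fun_prop

theorem DD1_tsupport {ψ : ℝ → ℝ} : tsupport (DD1 N ψ) ⊆ tsupport ψ := by
  refine (tsupport_deriv_subset (𝕜 := ℝ)).trans ?_
  refine closure_minimal ?_ (isClosed_tsupport ψ)
  intro x hx
  have : deriv ψ x ≠ 0 := fun h => hx (by simp [h])
  exact support_deriv_subset this

/-- the test function -/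
def tf (e : E N) (ψ : ℝ → ℝ) (k : ℕ) (x : E N) : ℝ := ψ ‖x‖ * qk k (⟪x, e⟫ / ‖x‖)

theorem tf_isTest {ρ : ℝ} (hρ : 0 < ρ) (e : E N) {ψ : ℝ → ℝ} (hψ : ContDiff ℝ ∞ ψ)
    (hs : tsupport ψ ⊆ Ioo ρ 1) (k : ℕ) : IsTest (ann N ρ) (tf e ψ k) := by
  have hcl : IsClosed {x : E N | ‖x‖ ∈ tsupport ψ} := (isClosed_tsupport ψ).preimage continuous_norm
  have hsub : tsupport (tf e ψ k) ⊆ {x : E N | ‖x‖ ∈ tsupport ψ} := by
    refine closure_minimal (fun x hx => ?_) hcl
    apply subset_tsupport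
    intro h
    exact hx (by simp [tf, h])
  have hsub2 : tsupport (tf e ψ k) ⊆ ann N ρ := fun x hx => hs (hsub hx)
  refine ⟨?_, ?_, hsub2⟩
  · rw [contDiff_iff_contDiffAt]
    intro x
    by_cases hx : x ∈ tsupport (tf e ψ k)
    · have hx0 : x ≠ 0 := by
        intro h
        have := (hsub2 hx).1
        rw [h, norm_zero] at this
        linarith
      have hn : ContDiffAt ℝ ∞ (fun y : E N => ‖y‖) x := contDiffAt_norm ℝ hx0
      have hi : ContDiffAt ℝ ∞ (fun y : E N => ⟪y, e⟫ / ‖y‖) x :=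
        ContDiffAt.div (contDiff_id.inner ℝ contDiff_const).contDiffAt hn (norm_ne_zero_iff.2 hx0)
      exact (hψ.contDiffAt.comp x hn).mul ((qk_contDiff k).contDiffAt.comp x hi)
    · have : tf e ψ k =ᶠ[𝓝 x] fun _ => 0 := by
        filter_upwards [(isClosed_tsupport (tf e ψ k)).isOpen_compl.mem_nhds hx] with y hy
        exact image_eq_zero_of_notMem_tsupport hy
      exact contDiffAt_const.congr_of_eventuallyEq this
  · refine HasCompactSupport.of_support_subset_isCompact (isCompact_closedBall (0 : E N) 1) ?_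
    intro x hx
    have := (hsub2 (subset_tsupport _ hx)).2
    simpa using this.le

theorem tf_lap (hN : 3 ≤ N) {e : E N} (he : ‖e‖ = 1) {ψ : ℝ → ℝ}
    (hψ : ContDiff ℝ ∞ ψ) (k : ℕ) {x : E N} (hx : x ≠ 0) :
    lap (tf e ψ k) x = DD1 N ψ ‖x‖ / ‖x‖ ^ (N - 1) * qk k (⟪x, e⟫ / ‖x‖)
      + ψ ‖x‖ / ‖x‖ ^ 2 * GG N (qk k) (⟪x, e⟫ / ‖x‖) := by
  have hx0 : 0 < ‖x‖ := norm_pos_iff.2 hx
  set c := cc N with hc
  set y : ℝ → ℝ := fun t => Real.exp (-c * t) * ψ (Real.exp (-t)) with hy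
  have hyc : ContDiff ℝ ∞ y := by
    rw [hy]
    exact (Real.contDiff_exp.comp (contDiff_const.mul contDiff_id)).mul
      (hψ.comp (Real.contDiff_exp.comp contDiff_neg))
  have hev : tf e ψ k =ᶠ[𝓝 x] cyl N e y (qk k) := by
    filter_upwards [isOpen_ne.mem_nhds hx] with z hz
    have hz0 : 0 < ‖z‖ := norm_pos_iff.2 hz
    simp only [tf, cyl, hy]
    rw [neg_neg, Real.exp_log hz0, show -c * -Real.log ‖z‖ = Real.log ‖z‖ * c by ring,
      ← Real.rpow_def_of_pos hz0, ← mul_assoc (‖z‖ ^ (-cc N)), ← Real.rpow_add hz0]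
    rw [← hc, neg_add_cancel, Real.rpow_zero, one_mul]
  rw [lap_congr hev, lap_cyl he hx (by exact_mod_cast contDiff_infty.1 hyc 2)
    (by exact_mod_cast contDiff_infty.1 (qk_contDiff k) 2)]
  have hd1 : ∀ t, HasDerivAt (fun t : ℝ => Real.exp (-t)) (-Real.exp (-t)) t := fun t => by
    have := (hasDerivAt_neg t).exp
    simpa using this
  have hdc : ∀ (a t : ℝ), HasDerivAt (fun t : ℝ => Real.exp (-a * t)) (-a * Real.exp (-a * t)) t :=
    fun a t => by
      have := ((hasDerivAt_id t).const_mul (-a)).exp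
      refine this.congr_deriv ?_
      simp; ring
  have hψ1 : ∀ r, HasDerivAt ψ (deriv ψ r) r := fun r =>
    (hψ.differentiable (by simp) r).hasDerivAt
  have hψ2 : ∀ r, HasDerivAt (deriv ψ) (deriv (deriv ψ) r) r := fun r =>
    ((contDiff_deriv hψ).differentiable (by simp) r).hasDerivAt
  have hy1 : deriv y = fun t => -c * Real.exp (-c * t) * ψ (Real.exp (-t))
      - Real.exp (-c * t) * Real.exp (-t) * deriv ψ (Real.exp (-t)) := by
    funext t
    have := ((hdc c t).mul ((hψ1 (Real.exp (-t))).comp t (hd1 t))).deriv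
    rw [show y = (fun t : ℝ => Real.exp (-c * t)) * (ψ ∘ fun t => Real.exp (-t)) from rfl, this]
    simp only [Function.comp]
    ring
  have hy2 : deriv (deriv y) = fun t => c ^ 2 * Real.exp (-c * t) * ψ (Real.exp (-t))
      + (2 * c + 1) * (Real.exp (-c * t) * Real.exp (-t) * deriv ψ (Real.exp (-t)))
      + Real.exp (-c * t) * Real.exp (-t) ^ 2 * deriv (deriv ψ) (Real.exp (-t)) := by
    rw [hy1]
    funext t
    have h1 := ((hdc c t).const_mul (-c)).mul ((hψ1 (Real.exp (-t))).comp t (hd1 t))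
    have h2 := ((hdc c t).mul (hd1 t)).mul ((hψ2 (Real.exp (-t))).comp t (hd1 t))
    have h3 := (h1.sub h2).deriv
    have : (fun t => -c * Real.exp (-c * t) * ψ (Real.exp (-t))
      - Real.exp (-c * t) * Real.exp (-t) * deriv ψ (Real.exp (-t)))
      = ((fun t : ℝ => -c * Real.exp (-c * t)) * (ψ ∘ fun t => Real.exp (-t)))
        - (((fun t : ℝ => Real.exp (-c * t)) * fun t : ℝ => Real.exp (-t))
          * (deriv ψ ∘ fun t => Real.exp (-t))) := rfl
    rw [this, h3]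
    simp only [Function.comp, Pi.mul_apply]
    ring
  rw [hy2, DD1_eq hψ]
  simp only [hy]
  have e1 : Real.exp (- -Real.log ‖x‖) = ‖x‖ := by rw [neg_neg, Real.exp_log hx0]
  have e2 : Real.exp (-c * -Real.log ‖x‖) = ‖x‖ ^ c := by
    rw [show -c * -Real.log ‖x‖ = Real.log ‖x‖ * c by ring, ← Real.rpow_def_of_pos hx0]
  rw [e1, e2]
  have e3 : ‖x‖ ^ (-cc N - 2) = (‖x‖ ^ c)⁻¹ * (‖x‖ ^ 2)⁻¹ := by
    rw [← hc, sub_eq_add_neg, Real.rpow_add hx0, Real.rpow_neg hx0.le, Real.rpow_neg hx0.le]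
    norm_num
  rw [e3]
  have e4 : 2 * c + 1 = N - 1 := by rw [hc, cc]; ring
  obtain ⟨m, rfl⟩ : ∃ m, N = m + 2 := ⟨N - 2, by omega⟩
  have e5 : m + 2 - 1 - 1 = m := by omega
  have e6 : m + 2 - 1 = m + 1 := by omega
  rw [e5, e6, e4]
  have hpc : ‖x‖ ^ c ≠ 0 := (Real.rpow_pos_of_pos hx0 c).ne'
  have hx0' := hx0.ne'
  unfold GG
  push_cast
  field_simp
  ring

/-- integrability of continuous functions of `(|x|, s)` -/
theorem axInteg {ρ : ℝ} (hρ : 0 < ρ) {e : E N} (he : ‖e‖ = 1) {k : ℝ → ℝ → ℝ}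
    (hk : ContinuousOn (fun z : ℝ × ℝ => k z.1 z.2) (Icc ρ 1 ×ˢ Icc (-1) 1)) :
    IntegrableOn (fun x : E N => k ‖x‖ (⟪x, e⟫ / ‖x‖)) (ann N ρ) volume := by
  have hcl : IsCompact {x : E N | ρ ≤ ‖x‖ ∧ ‖x‖ ≤ 1} := by
    refine IsCompact.of_isClosed_subset (isCompact_closedBall (0 : E N) 1)
      ((isClosed_le continuous_const continuous_norm).inter
        (isClosed_le continuous_norm continuous_const)) ?_
    intro x hx
    simpa using hx.2
  have hc : ContinuousOn (fun x : E N => k ‖x‖ (⟪x, e⟫ / ‖x‖)) {x : E N | ρ ≤ ‖x‖ ∧ ‖x‖ ≤ 1} := by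
    have h1 : ContinuousOn (fun x : E N => (‖x‖, ⟪x, e⟫ / ‖x‖)) {x : E N | ρ ≤ ‖x‖ ∧ ‖x‖ ≤ 1} := by
      refine continuous_norm.continuousOn.prodMk (ContinuousOn.div ?_ continuous_norm.continuousOn ?_)
      · exact (continuous_id.inner continuous_const).continuousOn
      · intro x hx
        exact (hρ.trans_le hx.1).ne'
    refine hk.comp h1 ?_
    intro x hx
    have hx0 : 0 < ‖x‖ := hρ.trans_le hx.1
    refine ⟨hx, ?_⟩
    have h2 : |⟪x, e⟫ / ‖x‖| ≤ 1 := by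
      rw [abs_div, abs_norm, div_le_one hx0]
      have := abs_real_inner_le_norm x e
      rwa [he, mul_one] at this
    exact abs_le.1 h2
  exact (hc.integrableOn_compact hcl).mono_set fun x hx => ⟨hx.1.le, hx.2.le⟩

end CapMod
end Pool.Agent.helper13.BN
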